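import Pool.Agent.T6.H63.SS.Main
import Pool.Agent.TH843.LR.Form

/-!
Local reductions from 3-SAT to unique games: a pseudo-expectation of the formula composed with the
honest labelings is a Sherali-Adams solution of the game; games with few vertices.
-/

namespace Pool.Agent.T6.H63.LR

open Finset Pool.Agent.W888.GX Pool.Agent.TH700.UG
open Pool.Agent.H647R3.UG (sat)
open Pool.Agent.TH522.UG (Dep)
open Pool.Agent.T6.H63.SA (SAl)

/-- composition of a functional with a local encoding, as a Sherali-Adams solution -/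
theorem sa_comp {n D d k : ℕ} {L : ((Fin n → ZMod 2) → ℝ) →ₗ[ℝ] ℝ} {V A : Type} [Fintype V]
    (hL : IsPseudoExpectation D L) (enc : (Fin n → ZMod 2) → V → A)
    (henc : ∀ v, ∃ S : Finset (Fin n), S.card ≤ d ∧ Reads (fun x => enc x v) S)
    (hD : k * d ≤ D) : SAl k (L.comp (LinearMap.funLeft ℝ ℝ enc)) := by
  classical
  choose S hS hR using henc
  refine ⟨?_, fun W hW f hf hf0 => ?_⟩
  · rw [LinearMap.comp_apply]
    exact hL.1
  · have h1 := hL.2 (fun z => Real.sqrt (f (enc z)))
      (mem_low (S := W.biUnion S) (by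
        refine card_biUnion_le.trans
          ((Finset.sum_le_card_nsmul W _ d fun v _ => hS v).trans ?_)
        rw [smul_eq_mul]
        exact (Nat.mul_le_mul_right d hW).trans hD) (by
        intro x y hxy
        show Real.sqrt (f (enc x)) = Real.sqrt (f (enc y))
        rw [hf (enc x) (enc y) fun v hv => hR v x y fun i hi =>
          hxy i (mem_biUnion.2 ⟨v, hv, hi⟩)]))
    have h2 : (fun z => (fun z => Real.sqrt (f (enc z))) z ^ 2) = fun z => f (enc z) := by
      funext z
      exact Real.sq_sqrt (hf0 _)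
    rw [h2] at h1
    exact h1

/-- the value of the composed solution -/
theorem val_comp {n D d k : ℕ} {L : ((Fin n → ZMod 2) → ℝ) →ₗ[ℝ] ℝ} {I V A E : Type} [Fintype E]
    [DecidableEq A] (hL : IsPseudoExpectation D L) (F : I → Clause k n)
    (hF : ∀ i, ∀ u : (Fin n → ZMod 2) → ℝ, (∀ x, (Satisfies x (F i) → u x = 0) ∧
      (¬ Satisfies x (F i) → u x = 1)) → L u = 0)
    (s t : E → V) (π : E → Equiv.Perm A) (ε : ℝ) (enc : (Fin n → ZMod 2) → V → A)
    (P : Type) [Fintype P] (T : P → Finset (Fin n)) (g : P → (Fin n → ZMod 2) → ℝ)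
    (hg : ∀ p, (T p).card ≤ d ∧ Reads (g p) (T p) ∧ ∀ x, SatOn F (T p) x → 0 ≤ g p x)
    (hv : ∀ x, (violated s t π (enc x) : ℝ) = ε * Fintype.card E - ∑ p, g p x)
    (hd : d ≤ D) :
    (1 - ε) * (Fintype.card E : ℝ) ≤
      ∑ e, (L.comp (LinearMap.funLeft ℝ ℝ enc)) (sat (s e) (t e) (π e)) := by
  have h1 : ∑ e, (L.comp (LinearMap.funLeft ℝ ℝ enc)) (sat (s e) (t e) (π e)) =
      L (fun x => (Fintype.card E : ℝ) - (violated s t π (enc x) : ℝ)) := by
    rw [← map_sum, LinearMap.comp_apply]
    congr 1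
    funext x
    rw [LinearMap.funLeft_apply, Finset.sum_apply]
    have h2 : (violated s t π (enc x) : ℝ) = ∑ e, (1 - sat (s e) (t e) (π e) (enc x)) := by
      unfold violated sat
      rw [card_eq_sum_ones, Nat.cast_sum, sum_filter]
      refine sum_congr rfl fun e _ => ?_
      by_cases h : π e (enc x (s e)) = enc x (t e)
      · rw [if_neg (not_not.2 h), if_pos h]; norm_num
      · rw [if_pos h, if_neg h]; norm_num
    rw [h2, sum_sub_distrib, sum_const, card_univ, nsmul_eq_mul, mul_one]
    ring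
  have h3 : (fun x => (Fintype.card E : ℝ) - (violated s t π (enc x) : ℝ)) =
      ((1 - ε) * (Fintype.card E : ℝ)) • (fun _ : Fin n → ZMod 2 => (1 : ℝ)) +
        ∑ p, g p := by
    funext x
    rw [Pi.add_apply, Pi.smul_apply, Finset.sum_apply, hv x, smul_eq_mul]
    ring
  rw [h1, h3, map_add, map_smul, hL.1, map_sum, smul_eq_mul, mul_one]
  have h4 : 0 ≤ ∑ p, L (g p) := sum_nonneg fun p _ =>
    pe_local hL F hF (T p) ((hg p).1.trans hd) (g p) (hg p).2.1 (hg p).2.2
  linarith

/-- few vertices: all labels of one side can be fixed at once -/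
theorem few {U V E A : Type} [Fintype U] [Fintype V] [Fintype E] [Fintype A] [DecidableEq A]
    (s : E → U) (t : E → V) (π : E → Equiv.Perm A) (k : ℕ) (L : ((U ⊕ V → A) → ℝ) →ₗ[ℝ] ℝ)
    (hL : SAl k L) (hk : Fintype.card U + 1 ≤ k) (γ : ℝ)
    (hval : γ ≤ ∑ e, L (sat (Sum.inl (s e)) (Sum.inr (t e)) (π e))) :
    ∃ (x : U → A) (y : V → A), γ ≤
      ((univ.filter fun e => π e (x (s e)) = y (t e)).card : ℝ) := by
  classical
  have hA : ∃ z : U ⊕ V → A, True := by
    by_contra hcon
    push Not at hcon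
    have h1 : L (fun _ => 1) = L 0 := by
      congr 1
      funext z
      exact absurd (hcon z) (by simp)
    rw [hL.one, map_zero] at h1
    exact one_ne_zero h1
  obtain ⟨z0, -⟩ := hA
  -- the number of satisfied edges of `v` for the label `b`
  set N : (U → A) → V → A → ℝ := fun α v b =>
    ∑ e, if t e = v ∧ π e (α (s e)) = b then (1 : ℝ) else 0 with hN
  have hbest : ∀ (α : U → A) (v : V), ∃ b, ∀ b', N α v b' ≤ N α v b := by
    intro α v
    obtain ⟨b, -, hb⟩ := exists_max_image univ (N α v) ⟨z0 (Sum.inr v), mem_univ _⟩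
    exact ⟨b, fun b' => hb b' (mem_univ _)⟩
  choose y hy using hbest
  by_contra hcon
  push Not at hcon
  have hlt : ∀ α : U → A, ∑ v, N α v (y α v) < γ := by
    intro α
    have h1 := hcon α (y α)
    refine lt_of_le_of_lt (le_of_eq ?_) h1
    rw [card_eq_sum_ones, Nat.cast_sum, sum_filter]
    simp only [hN]
    rw [sum_comm]
    refine sum_congr rfl fun e _ => ?_
    rw [sum_eq_single (t e)]
    · push_cast
      simp
    · intro v _ hv
      rw [if_neg fun h => hv h.1.symm]
    · intro h; exact absurd (mem_univ _) h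
  -- the restriction to `U`
  set ρ : (U ⊕ V → A) → U → A := fun z u => z (Sum.inl u) with hρ
  set SU : Finset (U ⊕ V) := univ.image Sum.inl with hSU
  have hSUc : SU.card ≤ Fintype.card U := card_image_le.trans (by rw [card_univ])
  have hmemU : ∀ u, Sum.inl u ∈ SU := fun u => mem_image_of_mem _ (mem_univ _)
  have hdepα : ∀ (S : Finset (U ⊕ V)), SU ⊆ S → ∀ α : U → A, ∀ z z' : U ⊕ V → A,
      (∀ w ∈ S, z w = z' w) → (ρ z = α ↔ ρ z' = α) := by
    intro S hS α z z' h
    have h1 : ρ z = ρ z' := by
      funext u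
      exact h _ (hS (hmemU u))
    rw [h1]
  have hp : ∀ (v : V) (α : U → A), 0 ≤ L (fun z => (if ρ z = α then 1 else 0) *
      (N α v (y α v) - N α v (z (Sum.inr v)))) := by
    intro v α
    refine hL.junta (insert (Sum.inr v) SU) ((card_insert_le _ _).trans (by omega)) _ ?_ ?_
    · intro z z' h
      have h1 := hdepα _ (subset_insert _ _) α z z' h
      have h2 := h (Sum.inr v) (mem_insert_self _ _)
      simp only [h2]
      by_cases h3 : ρ z = α
      · rw [if_pos h3, if_pos (h1.1 h3)]
      · rw [if_neg h3, if_neg fun h4 => h3 (h1.2 h4)]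
    · intro z
      exact mul_nonneg (by split_ifs <;> norm_num) (by linarith [hy α v (z (Sum.inr v))])
  have hq : ∀ α : U → A, 0 ≤ L (fun z => if ρ z = α then 1 else 0) := by
    intro α
    refine hL.junta SU (by omega) _ ?_ fun z => by split_ifs <;> norm_num
    intro z z' h
    have h1 := hdepα _ (Subset.refl _) α z z' h
    show (if ρ z = α then (1 : ℝ) else 0) = if ρ z' = α then (1 : ℝ) else 0
    by_cases h3 : ρ z = α
    · rw [if_pos h3, if_pos (h1.1 h3)]
    · rw [if_neg h3, if_neg fun h4 => h3 (h1.2 h4)]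
  have hone : ∑ α, L (fun z => if ρ z = α then 1 else 0) = 1 := by
    have h1 : (∑ α, fun z : U ⊕ V → A => if ρ z = α then (1 : ℝ) else 0) = fun _ => 1 := by
      funext z
      rw [Finset.sum_apply, sum_ite_eq, if_pos (mem_univ _)]
    rw [← map_sum, h1, hL.one]
  -- total
  have htot : ∑ e, L (sat (Sum.inl (s e)) (Sum.inr (t e)) (π e)) =
      ∑ α, ∑ v, L (fun z => (if ρ z = α then 1 else 0) * N α v (z (Sum.inr v))) := by
    rw [← map_sum]
    simp only [← map_sum]
    congr 1
    funext z
    rw [Finset.sum_apply, Finset.sum_apply, sum_eq_single (ρ z)]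
    · rw [Finset.sum_apply]
      simp only [if_true, one_mul, hN]
      rw [sum_comm]
      refine sum_congr rfl fun e _ => ?_
      rw [sum_eq_single (t e)]
      · unfold sat
        simp [hρ]
      · intro v _ hv
        rw [if_neg fun h => hv h.1.symm]
      · intro h; exact absurd (mem_univ _) h
    · intro α _ hα
      rw [Finset.sum_apply]
      refine sum_eq_zero fun v _ => ?_
      rw [if_neg (Ne.symm hα), zero_mul]
    · intro h; exact absurd (mem_univ _) h
  have hup : ∀ α, ∑ v, L (fun z => (if ρ z = α then 1 else 0) * N α v (z (Sum.inr v))) ≤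
      (∑ v, N α v (y α v)) * L (fun z => if ρ z = α then 1 else 0) := by
    intro α
    rw [sum_mul]
    refine sum_le_sum fun v _ => ?_
    have h1 := hp v α
    have h2 : (fun z : U ⊕ V → A => (if ρ z = α then (1 : ℝ) else 0) *
        (N α v (y α v) - N α v (z (Sum.inr v)))) =
        (N α v (y α v)) • (fun z => if ρ z = α then (1 : ℝ) else 0) -
          fun z => (if ρ z = α then 1 else 0) * N α v (z (Sum.inr v)) := by
      funext z
      rw [Pi.sub_apply, Pi.smul_apply, smul_eq_mul]
      ring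
    rw [h2, map_sub, map_smul, smul_eq_mul] at h1
    linarith
  have hα : ∃ α, 0 < L (fun z => if ρ z = α then 1 else 0) := by
    by_contra hno
    push Not at hno
    have : ∑ α, L (fun z => if ρ z = α then 1 else 0) ≤ 0 := sum_nonpos fun α _ => hno α
    linarith
  obtain ⟨α0, hα0⟩ := hα
  have hfin : ∑ α, (∑ v, N α v (y α v)) * L (fun z => if ρ z = α then 1 else 0) <
      ∑ α, γ * L (fun z => if ρ z = α then 1 else 0) :=
    sum_lt_sum (fun α _ => mul_le_mul_of_nonneg_right (hlt α).le (hq α))
      ⟨α0, mem_univ _, mul_lt_mul_of_pos_right (hlt α0) hα0⟩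
  rw [← mul_sum, hone, mul_one] at hfin
  have := sum_le_sum fun α (_ : α ∈ (univ : Finset (U → A))) => hup α
  linarith

end Pool.Agent.T6.H63.LR
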